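import Pool.Agent.helper17.GFG.Spec
import Pool.Agent.helper17.GFG.Cert

/-! Row gg:K51 (MP_561ff4_al): type `-1`. -/

set_option autoImplicit false

open Finset

namespace Pool.Agent.EXT

open Pool.Agent.EXC

theorem K51_thLR : LR th := by
  constructor
  · decide +kernel
  · decide +kernel

theorem K51_ga : ∀ i : Fin 3, 0 ≤ ip C6 (ga3 i) (lt7 13) := by decide +kernel

theorem K51_two : ∀ P ∈ Kc1, ∀ p ∈ P, ip C6 p.1 p.1 = 2 := by decide +kernel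

theorem K51 (hKPM : KPM_stmt) (hKCJ : KCJ_stmt) (hKRD : KRD_stmt) (hKSN : KSN_stmt) (hKGN : KGN_stmt)
    (hKXC : KXC_stmt) (hKFG : KFG_stmt) : K51_stmt := by
  intro K _ _ τ hτ a b y hab hy
  have hX1 : ∀ α, ip C6 α α = 2 → ∀ s : K, XP6 (1 : K) α s = XG C6 α s := fun α hα s =>
    (hKXC K 1 one_ne_zero α α hα hα s s).2.2.2.2.2
  obtain ⟨hCJ1, hCJ2, hCJ3⟩ := hKCJ K τ hτ
  have hpair : ∀ u v, LR u → LR v → ip C6 u v = -1 →
      XG C6 u 1 * XG C6 v 1 ∈ GS τ ∧ CJ τ y (XG C6 u 1 * XG C6 v 1) := by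
    intro u v hu hv huv
    obtain ⟨g, hg, hga, hgb⟩ := hKPM K τ hτ a b hab u v hu hv huv
    exact ⟨mul_mem (hCJ3 u hu 1 (map_one τ)) (hCJ3 v hv 1 (map_one τ)),
      hCJ1 a b (-1) y hab hy g hg u v hu hv 1 1 (map_one τ) (map_one τ) one_ne_zero one_ne_zero
        (by rw [one_smul]; exact hga) (by rw [one_smul]; exact hgb)⟩
  obtain ⟨g, hg, hFG⟩ := hKFG K τ hτ 1 (map_one τ) one_ne_zero
  have p0 := hpair (lt7 6) (lt7 1) (lt7_LR 6) (lt7_LR 1) (by decide +kernel)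
  have p1 := hpair (lt7 10) (lt7 17) (lt7_LR 10) (lt7_LR 17) (by decide +kernel)
  have p2 := hpair (lt7 11) (lt7 19) (lt7_LR 11) (lt7_LR 19) (by decide +kernel)
  have p3 := hpair (lt7 15) (lt7 14) (lt7_LR 15) (lt7_LR 14) (by decide +kernel)
  have p4 := hpair th (lt7 13) K51_thLR (lt7_LR 13) (by decide +kernel)
  have p5 : g * (XG C6 th 1 * XG C6 (lt7 13) 1) * g⁻¹ ∈ GS τ ∧
      CJ τ y (g * (XG C6 th 1 * XG C6 (lt7 13) 1) * g⁻¹) :=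
    ⟨mul_mem (mul_mem hg p4.1) (inv_mem hg), hCJ2 y _ p4.1 p4.2 g hg⟩
  obtain ⟨k, hk0, hk1, hk2, hk3, hk4⟩ : ∃ k : Fin 5 → Lm C6 K ≃ₗ[K] Lm C6 K,
      k 0 = XG C6 (lt7 6) 1 * XG C6 (lt7 1) 1 ∧ k 1 = XG C6 (lt7 10) 1 * XG C6 (lt7 17) 1 ∧
      k 2 = XG C6 (lt7 11) 1 * XG C6 (lt7 19) 1 ∧ k 3 = XG C6 (lt7 15) 1 * XG C6 (lt7 14) 1 ∧
      k 4 = g * (XG C6 th 1 * XG C6 (lt7 13) 1) * g⁻¹ :=
    ⟨![XG C6 (lt7 6) 1 * XG C6 (lt7 1) 1, XG C6 (lt7 10) 1 * XG C6 (lt7 17) 1,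
      XG C6 (lt7 11) 1 * XG C6 (lt7 19) 1, XG C6 (lt7 15) 1 * XG C6 (lt7 14) 1,
      g * (XG C6 th 1 * XG C6 (lt7 13) 1) * g⁻¹], rfl, rfl, rfl, rfl, rfl⟩
  refine hKRD K τ hτ y k ?_ ?_
  · intro i
    have hi : i = 0 ∨ i = 1 ∨ i = 2 ∨ i = 3 ∨ i = 4 := by
      fin_cases i <;> simp
    rcases hi with h | h | h | h | h
    · rw [h, hk0]; exact p0
    · rw [h, hk1]; exact p1
    · rw [h, hk2]; exact p2
    · rw [h, hk3]; exact p3
    · rw [h, hk4]; exact p5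
  · intro H hk
    have h0 := hk 0
    have h1 := hk 1
    have h2 := hk 2
    have h3 := hk 3
    have h4 := hk 4
    rw [hk0] at h0
    rw [hk1] at h1
    rw [hk2] at h2
    rw [hk3] at h3
    rw [hk4] at h4
    have hpr : ∀ u v, LR u → LR v → XG C6 u (1 : K) * XG C6 v 1 ∈ H →
        ∃ l, OK6 [(u, true), (v, true)] l ∧ pq6 (1 : K) l ∈ H := by
      intro u v hu hv h
      refine ⟨[(u, 1), (v, 1)], ?_, ?_⟩
      · unfold OK6
        exact List.Forall₂.cons ⟨rfl, fun _ => Or.inl rfl⟩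
          (List.Forall₂.cons ⟨rfl, fun _ => Or.inl rfl⟩ List.Forall₂.nil)
      · have h5 : pq6 (1 : K) [(u, 1), (v, 1)] = XP6 1 u 1 * XP6 1 v 1 := by
          unfold pq6
          simp
        rw [h5, hX1 u hu.1, hX1 v hv.1]
        exact h
    have hcert : ∀ P ∈ Kc1, ∃ l, OK6 P l ∧ pq6 (1 : K) l ∈ H := by
      intro P hP
      unfold Kc1 at hP
      rw [List.mem_cons, List.mem_cons, List.mem_cons, List.mem_cons] at hP
      rcases hP with h | h | h | h | h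
      · rw [h]; exact hpr _ _ (lt7_LR 6) (lt7_LR 1) h0
      · rw [h]; exact hpr _ _ (lt7_LR 10) (lt7_LR 17) h1
      · rw [h]; exact hpr _ _ (lt7_LR 11) (lt7_LR 19) h2
      · rw [h]; exact hpr _ _ (lt7_LR 15) (lt7_LR 14) h3
      · exact absurd h (List.not_mem_nil)
    have hall : ∀ β, LR β → XP6 (1 : K) β 1 ∈ H :=
      hKGN K 1 one_ne_zero H fun j =>
        (hKSN K 1 one_ne_zero Kc1 H K51_two hcert (lt7 (sx8 j)) (KC1 j)).2
    have h13 : XG C6 (lt7 13) (1 : K) ∈ H := by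
      rw [← hX1 (lt7 13) (lt7_LR 13).1]
      exact hall _ (lt7_LR 13)
    refine hFG (lt7 13) (lt7_LR 13) K51_ga 1 1 (Or.inl rfl) H hall h13 ?_
    rw [hX1 th K51_thLR.1]
    exact h4

end Pool.Agent.EXT
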