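import Pool.Agent.helper17.GFG.Spec

/-! Row gg:KFF (MP_561ff4_al): the theorem. -/

set_option autoImplicit false

open Finset

namespace Pool.Agent.EXT

open Pool.Agent.EXC

theorem KFF_fin {K : Type} [Field K] [Finite K] (τ : K ≃+* K) : Finite (GF τ) := by
  have h1 : Finite (Lm C6 K) := by
    unfold Lm
    infer_instance
  have h2 : Finite (LT τ) := inferInstance
  infer_instance

theorem KFF (hK50 : K50_stmt) (hK51 : K51_stmt) (hK52 : K52_stmt) (hYCF : YCF_stmt)
    (hFXF : FXF_stmt) : KFF_stmt := by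
  intro K _ _ τ hτ x hx hx1
  obtain ⟨t, a, b, m, hm, hab, hy⟩ := hYCF K τ hτ x hx hx1
  have hgen : ∃ g : Fin 5 → GF τ,
      Subgroup.closure (Set.range fun i => g i * (x t * t⁻¹) * (g i)⁻¹) = ⊤ := by
    rcases hm with h | h | h
    · rw [h] at hab
      exact hK52 K τ hτ a b _ hab hy
    · rw [h] at hab
      exact hK51 K τ hτ a b _ hab hy
    · rw [h] at hab
      exact hK50 K τ hτ a b _ hab hy
  obtain ⟨g, hg⟩ := hgen
  have hfin : Finite (GF τ) := KFF_fin τ
  obtain ⟨h1, h2⟩ := k_GGA (GF τ) x t g hg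
  exact ⟨h1, h2 (hFXF K τ hτ).2⟩

end Pool.Agent.EXT
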